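import Pool.Agent.T9h45.LD.Spec

/-!
# Piece B1 of the project LD: the data before the labelling
-/

set_option autoImplicit false

namespace Pool.Agent.T9h96.LD

open Finset Classical Pool.T9h45.HY Pool.T9h45.CP Pool.T9h45.LD

section Count

variable {V : Type} [Fintype V]

theorem cn_mono {P Q : V → Prop} (h : ∀ w, P w → Q w) : cn P ≤ cn Q := by
  unfold cn
  apply Finset.card_le_card
  intro w hw
  rw [Finset.mem_filter] at hw ⊢
  exact ⟨hw.1, h w hw.2⟩

theorem cn_congr {P Q : V → Prop} (h : ∀ w, P w ↔ Q w) : cn P = cn Q :=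
  le_antisymm (cn_mono fun w => (h w).1) (cn_mono fun w => (h w).2)

theorem cn_add {P P1 P2 : V → Prop} (h : ∀ w, P w ↔ P1 w ∨ P2 w)
    (h' : ∀ w, P1 w → ¬ P2 w) : cn P = cn P1 + cn P2 := by
  unfold cn
  rw [← Finset.card_union_of_disjoint]
  · congr 1
    ext w
    rw [Finset.mem_union, Finset.mem_filter, Finset.mem_filter, Finset.mem_filter]
    have := Finset.mem_univ w
    have := h w
    tauto
  · rw [Finset.disjoint_left]
    intro w hw hw'
    rw [Finset.mem_filter] at hw hw'
    exact h' w hw.2 hw'.2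

theorem cn_split (P Q : V → Prop) :
    cn P = cn (fun w => P w ∧ Q w) + cn (fun w => P w ∧ ¬ Q w) :=
  cn_add (fun w => by tauto) (fun w h1 h2 => h2.2 h1.2)

theorem cn_or (P Q : V → Prop) : cn (fun w => P w ∨ Q w) ≤ cn P + cn Q := by
  rw [cn_add (P := fun w => P w ∨ Q w) (P1 := P) (P2 := fun w => Q w ∧ ¬ P w)
    (fun w => by tauto) (fun w h1 h2 => h2.2 h1)]
  exact Nat.add_le_add_left (cn_mono fun w h => h.1) _

theorem cn_eq_le (v : V) : cn (fun w => w = v) ≤ 1 := by
  unfold cn
  rw [Finset.card_le_one]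
  intro a ha b hb
  rw [Finset.mem_filter] at ha hb
  rw [ha.2, hb.2]

theorem cn_inj {P Q : V → Prop} (s : V → V) (hs : Function.Injective s)
    (h : ∀ w, P w → Q (s w)) : cn P ≤ cn Q := by
  unfold cn
  refine Finset.card_le_card_of_injOn s ?_ hs.injOn
  intro w hw
  rw [Finset.mem_coe, Finset.mem_filter] at hw ⊢
  exact ⟨Finset.mem_univ _, h w hw.2⟩

theorem cn_zero {P : V → Prop} (h : ∀ w, ¬ P w) : cn P = 0 := by
  unfold cn
  rw [Finset.card_eq_zero]
  ext w
  simp only [Finset.mem_filter, Finset.mem_univ, true_and, Finset.notMem_empty, iff_false]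
  exact h w

/-- the class is the union of its two sides -/
theorem cN_eq (S : V → Prop) (cl : V → V) (v : V) : cN cl v = cA S cl v + cB S cl v := by
  unfold cN cA cB
  rw [cn_split (fun w => cl w = cl v) S]
  congr 1
  · exact cn_congr fun w => and_comm
  · exact cn_congr fun w => and_comm

theorem cN_cl {cl : V → V} {u v : V} (h : cl u = cl v) : cN cl u = cN cl v := by
  unfold cN
  rw [h]

theorem cA_cl {S : V → Prop} {cl : V → V} {u v : V} (h : cl u = cl v) :
    cA S cl u = cA S cl v := by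
  unfold cA
  rw [h]

theorem cB_cl {S : V → Prop} {cl : V → V} {u v : V} (h : cl u = cl v) :
    cB S cl u = cB S cl v := by
  unfold cB
  rw [h]

theorem cPair_cl {cl σ : V → V} {u v : V} (h : cl u = cl v) :
    cPair cl σ u = cPair cl σ v := by
  unfold cPair
  rw [h]

/-- degree of a vertex -/
theorem deg_le {G : SimpleGraph V} {cl : V → V} {D : ℕ} (v : V)
    (hd : cn (fun w => G.Adj v w) ≤ D) : cN cl v + cE G cl v ≤ D + 1 + cNon G cl v := by
  have h1 : cn (fun w => G.Adj v w) =
      cn (fun w => G.Adj v w ∧ cl w = cl v) + cE G cl v :=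
    cn_split (fun w => G.Adj v w) (fun w => cl w = cl v)
  have h2 : cN cl v ≤ cn (fun w => w = v) +
      cn (fun w => (cl w = cl v ∧ w ≠ v ∧ ¬ G.Adj v w) ∨ (G.Adj v w ∧ cl w = cl v)) := by
    refine le_trans (cn_mono ?_) (cn_or _ _)
    intro w hw
    by_cases h1 : w = v
    · exact Or.inl h1
    · by_cases h2 : G.Adj v w
      · exact Or.inr (Or.inr ⟨h2, hw⟩)
      · exact Or.inr (Or.inl ⟨hw, h1, h2⟩)
  have h3 := cn_or (fun w => cl w = cl v ∧ w ≠ v ∧ ¬ G.Adj v w)
    (fun w => G.Adj v w ∧ cl w = cl v)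
  have h4 : cn (fun w => cl w = cl v ∧ w ≠ v ∧ ¬ G.Adj v w) = cNon G cl v := rfl
  have h5 := cn_eq_le v
  omega

/-- a single vertex which is adjacent to all the other single vertices and to at least one vertex
of every pair has few nonneighbours -/
theorem two_cNon_le {G : SimpleGraph V} {cl σ : V → V} (x : V)
    (hinv : ∀ v, σ (σ v) = v) (hcl : ∀ v, cl (σ v) = cl v)
    (h1 : ∀ w, cl w = cl x → w ≠ x → σ w = w → G.Adj x w)
    (h2 : ∀ w, cl w = cl x → σ w ≠ w → G.Adj x w ∨ G.Adj x (σ w)) :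
    2 * cNon G cl x ≤ cPair cl σ x := by
  have hinj : Function.Injective σ := fun a b h => by
    rw [← hinv a, ← hinv b, h]
  have e1 : cPair cl σ x = cn (fun w => (cl w = cl x ∧ σ w ≠ w) ∧ ¬ G.Adj x w) +
      cn (fun w => (cl w = cl x ∧ σ w ≠ w) ∧ ¬ ¬ G.Adj x w) :=
    cn_split (fun w => cl w = cl x ∧ σ w ≠ w) (fun w => ¬ G.Adj x w)
  have e2 : cNon G cl x ≤ cn (fun w => (cl w = cl x ∧ σ w ≠ w) ∧ ¬ G.Adj x w) := by
    refine cn_mono ?_
    rintro w ⟨hw, hne, hna⟩
    exact ⟨⟨hw, fun h => hna (h1 w hw hne h)⟩, hna⟩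
  have e3 : cNon G cl x ≤ cn (fun w => (cl w = cl x ∧ σ w ≠ w) ∧ ¬ ¬ G.Adj x w) := by
    refine cn_inj σ hinj ?_
    rintro w ⟨hw, hne, hna⟩
    have hs : σ w ≠ w := fun h => hna (h1 w hw hne h)
    refine ⟨⟨(hcl w).trans hw, fun h => hs (hinj h)⟩, not_not.2 ?_⟩
    exact (h2 w hw hs).resolve_left hna
  omega

end Count

/-- **B1.** -/
theorem b1 : SB1 := by
  intro hT1 hT2 hT3 V _ G cl D h hD hdeg hout hnon hn1 hn
  have hth : th h = 8 * h + 8 := rfl
  obtain ⟨big, bad, σ, b1, i1, c1, a1, p1, s1, d1, e1, f1⟩ := hT1 V G cl (2 * th h)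
  obtain ⟨inn, S₀, in1, S1, bi, pi, bs, bz, sl, sn⟩ :=
    hT2 V cl σ big bad (th h) b1 i1 c1 p1 s1 d1 (fun v => by
      have := hn1 v
      omega)
  obtain ⟨S, k0, k1, k2, k3⟩ := hT3 V G cl (fun v => ¬ big v ∧ ¬ inn v) S₀ (cNon G cl)
    (fun v => 8 * th h + cPair cl σ v) (fun u v huv => by rw [cPair_cl huv])
  have hnb : ∀ u v, cl u = cl v → ¬ big v → ¬ big u := fun u v huv hv hu => hv ((b1 u v huv).1 hu)
  have slow : ∀ v, ¬ big v → S v → ¬ inn v := by
    intro v hv hS hi
    exact sl v hv hi ((k0 v (fun hm => hm.2 hi)).1 hS)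
  have hsing : ∀ v, ¬ inn v → σ v = v := by
    intro v hv
    by_contra hne
    exact hv (pi v hne)
  have htwo : ∀ x, ¬ big x → ¬ inn x → 2 * cNon G cl x ≤ cPair cl σ x := by
    intro x hx hi
    refine two_cNon_le x i1 c1 ?_ ?_
    · intro w hw hne hs
      exact e1 x w hx hw.symm hne.symm (hsing x hi) hs
    · intro w hw hs
      exact f1 x w hx hw (hsing x hi) (fun hb => hi (bi x hx hb)) hs
  refine ⟨S, big, inn, σ, ?_⟩
  refine
    { hdeg := hdeg
      hout := hout
      hn1 := hn1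
      hn := hn
      bigcl := b1
      invs := i1
      cls := c1
      adjs := a1
      Ss := ?_
      inns := in1
      pinn := pi
      bpair := bs
      bsz := ?_
      slow := slow
      spair := ?_
      sinn := sn
      sclique := ?_
      ssee := ?_
      sI := ?_
      sA := ?_
      sB := ?_
      sO := ?_ }
  · intro v
    by_cases hs : σ v = v
    · rw [hs]
    · have hi : inn v := pi v hs
      have hi' : inn (σ v) := (in1 v).2 hi
      rw [k0 v (fun hm => hm.2 hi), k0 (σ v) (fun hm => hm.2 hi')]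
      exact S1 v
  · intro v hv
    obtain ⟨z1, z2, z3⟩ := bz v hv
    have key : ∀ w, cl w = cl v → (S w ↔ S₀ w) := fun w hw =>
      k0 w (fun hm => hm.1 ((b1 w v hw).2 hv))
    have q1 : cn (fun w => cl w = cl v ∧ S w ∧ inn w) = 2 * th h := by
      rw [← z1]
      exact cn_congr fun w => and_congr_right fun hw => by rw [key w hw]
    have q2 : cn (fun w => cl w = cl v ∧ ¬ S w ∧ inn w) = 2 * th h := by
      rw [← z2]
      exact cn_congr fun w => and_congr_right fun hw => by rw [key w hw]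
    have q3 : cA S cl v = (cN cl v - 8 * th h) / 2 := by
      rw [← z3]
      unfold cA
      refine cn_congr fun w => ?_
      constructor
      · rintro ⟨hS, hw⟩
        exact ⟨(key w hw).1 hS, hw⟩
      · rintro ⟨hS, hw⟩
        exact ⟨(key w hw).2 hS, hw⟩
    have hN := hn1 v
    refine ⟨q1, q2, ?_, ?_⟩
    · rw [q3]
      omega
    · rw [q3]
      omega
  · intro v hv
    have := (s1 v hv).1
    omega
  · intro u v hu hSu hSv huv hne
    have hv : ¬ big v := hnb v u huv.symm hu
    exact e1 u v hu huv hne (hsing u (slow u hu hSu)) (hsing v (slow v hv hSv))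
  · intro x q hx hSx hSq hq
    have hix := slow x hx hSx
    by_cases hs : σ q = q
    · left
      refine e1 x q hx hq.symm ?_ (hsing x hix) hs
      rintro rfl
      exact hSq hSx
    · exact f1 x q hx hq (hsing x hix) (fun hb => hix (bi x hx hb)) hs
  · intro x y hx hSx hSy hy hiy
    have hby : ¬ big y := hnb y x hy hx
    have hk := k3 x y ⟨hx, slow x hx hSx⟩ ⟨hby, hiy⟩ hSx hSy hy.symm
    have g1 := deg_le (cl := cl) x (hdeg x)
    have g2 := deg_le (cl := cl) y (hdeg y)
    have g3 := cN_cl hy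
    omega
  · intro v hv
    by_cases hex : ∃ x, cl x = cl v ∧ S x
    · obtain ⟨x, hx, hSx⟩ := hex
      have hbx : ¬ big x := hnb x v hx hv
      have hk := k1 x ⟨hbx, slow x hbx hSx⟩ hSx
      have g1 := hout x
      have g2 := hnon x
      have g3 := cN_eq S cl x
      have g4 := hn x
      have g5 := cA_cl (S := S) hx
      have g6 := cPair_cl (σ := σ) hx
      omega
    · have h0 : cA S cl v = 0 := by
        unfold cA
        exact cn_zero fun w hw => hex ⟨w, hw.2, hw.1⟩
      have h1 := (s1 v hv).1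
      omega
  · intro v hv
    by_cases hex : ∃ y, cl y = cl v ∧ ¬ S y ∧ ¬ inn y
    · obtain ⟨y, hy, hSy, hiy⟩ := hex
      have hby : ¬ big y := hnb y v hy hv
      have hk := k2 y ⟨hby, hiy⟩ hSy
      have g1 := hout y
      have g3 := cN_eq S cl y
      have g4 := hn y
      have g5 := cB_cl (S := S) hy
      have g6 := cPair_cl (σ := σ) hy
      omega
    · have h0 : cB S cl v ≤ cn (fun w => cl w = cl v ∧ inn w) := by
        unfold cB
        refine cn_mono ?_
        rintro w ⟨hS, hw⟩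
        refine ⟨hw, ?_⟩
        by_contra hi
        exact hex ⟨w, hw, hS, hi⟩
      have h1 := sn v hv
      omega
  · intro x y hx hy hSx hSy hiy
    have hk1 := k1 x ⟨hx, slow x hx hSx⟩ hSx
    have hk2 := k2 y ⟨hy, hiy⟩ hSy
    have g1 := deg_le (cl := cl) x (hdeg x)
    have g2 := deg_le (cl := cl) y (hdeg y)
    have g3 := cN_eq S cl x
    have g4 := cN_eq S cl y
    have g5 := htwo x hx (slow x hx hSx)
    omega

end Pool.Agent.T9h96.LD
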